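import Mathlib

set_option autoImplicit false
open FirstOrder FirstOrder.Language

namespace Pool.Agent.Results.MP_9f131e_lc.IsotypicFree

/-- The algebra `A` belongs to the variety defined by the set of identities `E`. -/
def InVariety (L : FirstOrder.Language.{0, 0})
    (E : Set (Σ n : ℕ, L.Term (Fin n) × L.Term (Fin n)))
    (A : Type) [L.Structure A] : Prop :=
  ∀ e ∈ E, ∀ v : Fin e.1 → A, e.2.1.realize v = e.2.2.realize v

/-- `F` is the free algebra of the variety defined by `E`, with free basis `ι 0, ..., ι (n-1)`. -/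
def IsFreeOn (L : FirstOrder.Language.{0, 0})
    (E : Set (Σ n : ℕ, L.Term (Fin n) × L.Term (Fin n)))
    (n : ℕ) (F : Type) [L.Structure F] (ι : Fin n → F) : Prop :=
  InVariety L E F ∧ ∀ (M : Type) [L.Structure M], InVariety L E M →
    ∀ f : Fin n → M, ∃! h : L.Hom F M, ⇑h ∘ ι = f

/-- The tuples `a` of `A` and `b` of `B` have the same complete type (equal logical kernels). -/
def SameType (L : FirstOrder.Language.{0, 0}) {A B : Type} [L.Structure A] [L.Structure B]
    {m : ℕ} (a : Fin m → A) (b : Fin m → B) : Prop :=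
  ∀ φ : L.Formula (Fin m), φ.Realize a ↔ φ.Realize b

/-- `A` and `B` are isotypic: they realise the same complete types of finite tuples. -/
def Isotypic (L : FirstOrder.Language.{0, 0}) (A B : Type) [L.Structure A] [L.Structure B] :
    Prop :=
  ∀ m : ℕ, (∀ a : Fin m → A, ∃ b : Fin m → B, SameType L a b) ∧
    (∀ b : Fin m → B, ∃ a : Fin m → A, SameType L a b)

/-! ### The concrete variety -/

/-- Function symbols: only unary ones, `none` is `f` and `some n` is `c n`. -/
def Fn : ℕ → Type
  | 1 => Option ℕ
  | _ => Empty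

/-- The language with the unary function symbols `f` and `c n`, `n : ℕ`. -/
def L0 : FirstOrder.Language.{0, 0} := ⟨Fn, fun _ => Empty⟩

/-- The symbol `f`. -/
def sf : L0.Functions 1 := (none : Option ℕ)

/-- The symbol `c n`. -/
def sc (n : ℕ) : L0.Functions 1 := (some n : Option ℕ)

theorem fn_cases {P : ∀ (l : ℕ), L0.Functions l → Prop} (h1 : P 1 sf) (h2 : ∀ n, P 1 (sc n)) :
    ∀ (l : ℕ) (g : L0.Functions l), P l g
  | 0, g => Empty.elim g
  | 1, g => match g with
    | none => h1
    | some n => h2 n
  | (_ + 2), g => Empty.elim g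

/-- The term `f t`. -/
def tf {α : Type} (t : L0.Term α) : L0.Term α := Term.func sf (fun _ => t)

/-- The term `c n t`. -/
def tc {α : Type} (n : ℕ) (t : L0.Term α) : L0.Term α := Term.func (sc n) (fun _ => t)

/-- The variable. -/
def vx : L0.Term (Fin 1) := Term.var 0

/-- The identities `f (c n x) = f (c 0 x)`, `f (c 0 (c n x)) = f x`, `c n (f x) = f x`,
`f (f x) = f x`. -/
def E0 : Set (Σ n : ℕ, L0.Term (Fin n) × L0.Term (Fin n)) :=
  {e | (∃ n, e = ⟨1, (tf (tc n vx), tf (tc 0 vx))⟩) ∨ (∃ n, e = ⟨1, (tf (tc 0 (tc n vx)), tf vx)⟩) ∨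
    (∃ n, e = ⟨1, (tc n (tf vx), tf vx)⟩) ∨ e = ⟨1, (tf (tf vx), tf vx)⟩}

/-- Interpretation of `f` in an algebra. -/
def opf {A : Type} [L0.Structure A] (y : A) : A := Structure.funMap sf (fun _ => y)

/-- Interpretation of `c n` in an algebra. -/
def opc {A : Type} [L0.Structure A] (n : ℕ) (y : A) : A := Structure.funMap (sc n) (fun _ => y)

theorem funMap_sf {A : Type} [L0.Structure A] (x : Fin 1 → A) :
    Structure.funMap sf x = opf (x 0) := by
  unfold opf
  congr 1
  funext i
  rw [Subsingleton.elim i 0]

theorem funMap_sc {A : Type} [L0.Structure A] (n : ℕ) (x : Fin 1 → A) :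
    Structure.funMap (sc n) x = opc n (x 0) := by
  unfold opc
  congr 1
  funext i
  rw [Subsingleton.elim i 0]

theorem sat_iff (A : Type) [L0.Structure A] : InVariety L0 E0 A ↔
    ((∀ n, ∀ y : A, opf (opc n y) = opf (opc 0 y)) ∧ (∀ n, ∀ y : A, opf (opc 0 (opc n y)) = opf y) ∧
    (∀ n, ∀ y : A, opc n (opf y) = opf y) ∧ (∀ y : A, opf (opf y) = opf y)) := by
  constructor
  · intro h
    refine ⟨fun n y => ?_, fun n y => ?_, fun n y => ?_, fun y => ?_⟩
    · exact h _ (Or.inl ⟨n, rfl⟩) (fun _ => y)
    · exact h _ (Or.inr (Or.inl ⟨n, rfl⟩)) (fun _ => y)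
    · exact h _ (Or.inr (Or.inr (Or.inl ⟨n, rfl⟩))) (fun _ => y)
    · exact h _ (Or.inr (Or.inr (Or.inr rfl))) (fun _ => y)
  · rintro ⟨h1, h2, h3, h4⟩ e (⟨n, rfl⟩ | ⟨n, rfl⟩ | ⟨n, rfl⟩ | rfl) v
    · exact h1 n (v 0)
    · exact h2 n (v 0)
    · exact h3 n (v 0)
    · exact h4 (v 0)

/-- The free algebra on one generator: words in the letters `c n`, and two more elements. -/
inductive W : Type
  | w : List ℕ → W
  | b : Bool → W

/-- Interpretation of `f`: the parity of the length of a word. -/
def Wf : W → W
  | W.w l => W.b (decide (l.length % 2 = 1))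
  | W.b x => W.b x

/-- Interpretation of `c n`: add the letter `n` at the end of a word. -/
def Wc (n : ℕ) : W → W
  | W.w l => W.w (l ++ [n])
  | W.b x => W.b x

/-- Interpretation of the function symbols. -/
def Wfun : ∀ {l : ℕ}, L0.Functions l → (Fin l → W) → W
  | 0, g => Empty.elim g
  | 1, g => match g with
    | none => fun x => Wf (x 0)
    | some n => fun x => Wc n (x 0)
  | (_ + 2), g => Empty.elim g

instance : L0.Structure W where
  funMap := Wfun
  RelMap := fun r => Empty.elim r

theorem W_opf (y : W) : opf y = Wf y := rfl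

theorem W_opc (n : ℕ) (y : W) : opc n y = Wc n y := rfl

theorem W_sat : InVariety L0 E0 W := by
  rw [sat_iff]
  refine ⟨fun n y => ?_, fun n y => ?_, fun n y => ?_, fun y => ?_⟩
  · cases y with
    | w l => simp [W_opf, W_opc, Wf, Wc]
    | b x => rfl
  · cases y with
    | w l =>
      simp only [W_opf, W_opc, Wf, Wc, List.length_append, List.length_cons, List.length_nil]
      congr 2
      simp only [eq_iff_iff]
      omega
    | b x => rfl
  · cases y <;> rfl
  · cases y <;> rfl

/-- The generator of the free algebra. -/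
def gen0 : W := W.w []

theorem gen0_not (l : ℕ) (g : L0.Functions l) (x : Fin l → W) :
    Structure.funMap g x ≠ gen0 := by
  revert x
  refine fn_cases (P := fun l g => ∀ x : Fin l → W, Structure.funMap g x ≠ gen0) ?_ ?_ l g
  · intro x
    rw [funMap_sf, W_opf]
    cases x 0 <;> simp [Wf, gen0]
  · intro n x
    rw [funMap_sc, W_opc]
    cases x 0 <;> simp [Wc, gen0]

section univ

variable {M : Type} [L0.Structure M]

/-- The image of a word under the homomorphism sending the generator to `p`. -/
def word (p : M) (l : List ℕ) : M := l.foldl (fun y n => opc n y) p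

theorem word_nil (p : M) : word p [] = p := rfl

theorem word_concat (p : M) (l : List ℕ) (n : ℕ) : word p (l ++ [n]) = opc n (word p l) := by
  simp [word]

/-- The homomorphism from the free algebra sending the generator to `p`. -/
def ext0 (p : M) : W → M
  | W.w l => word p l
  | W.b x => if x = true then opf (opc 0 p) else opf p

theorem opf_word (hM : InVariety L0 E0 M) (p : M) (l : List ℕ) :
    opf (word p l) = if l.length % 2 = 1 then opf (opc 0 p) else opf p := by
  rw [sat_iff] at hM
  obtain ⟨h1, h2, h3, h4⟩ := hM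
  have key : ∀ l : List ℕ, opf (word p l) = (if l.length % 2 = 1 then opf (opc 0 p) else opf p) ∧
      opf (opc 0 (word p l)) = (if l.length % 2 = 1 then opf p else opf (opc 0 p)) := by
    intro l
    induction l using List.reverseRecOn with
    | nil => simp [word_nil]
    | append_singleton l n ih =>
      obtain ⟨ih1, ih2⟩ := ih
      have e1 : opf (word p (l ++ [n])) = opf (opc 0 (word p l)) := by
        rw [word_concat]; exact h1 n _
      have e2 : opf (opc 0 (word p (l ++ [n]))) = opf (word p l) := by
        rw [word_concat]; exact h2 n _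
      rw [e1, e2, ih1, ih2]
      simp only [List.length_append, List.length_cons, List.length_nil]
      constructor
      · split_ifs <;> first | rfl | omega
      · split_ifs <;> first | rfl | omega
  exact (key l).1

theorem ext0_hom (hM : InVariety L0 E0 M) (p : M) (l : ℕ) (g : L0.Functions l) (x : Fin l → W) :
    ext0 p (Structure.funMap g x) = Structure.funMap g (ext0 p ∘ x) := by
  have hM' := (sat_iff M).1 hM
  obtain ⟨h1, h2, h3, h4⟩ := hM'
  revert x
  refine fn_cases (P := fun l g => ∀ x : Fin l → W,
    ext0 p (Structure.funMap g x) = Structure.funMap g (ext0 p ∘ x)) ?_ ?_ l g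
  · intro x
    rw [funMap_sf, funMap_sf, W_opf, Function.comp_apply]
    cases x 0 with
    | w l => simp only [Wf, ext0, decide_eq_true_eq, opf_word hM p l]
    | b y =>
      simp only [Wf, ext0]
      split_ifs
      · rw [h4]
      · rw [h4]
  · intro n x
    rw [funMap_sc, funMap_sc, W_opc, Function.comp_apply]
    cases x 0 with
    | w l => simp only [Wc, ext0, word_concat]
    | b y =>
      simp only [Wc, ext0]
      split_ifs
      · rw [h3]
      · rw [h3]

/-- The homomorphism from the free algebra sending the generator to `p`. -/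
def extHom (hM : InVariety L0 E0 M) (p : M) : L0.Hom W M where
  toFun := ext0 p
  map_fun' := fun g x => ext0_hom hM p _ g x
  map_rel' := fun r => Empty.elim r

theorem hom_opf {A : Type} [L0.Structure A] (g : L0.Hom A M) (y : A) :
    g (opf y) = opf (g y) := by
  have := g.map_fun sf (fun _ => y)
  rw [funMap_sf, funMap_sf] at this
  exact this

theorem hom_opc {A : Type} [L0.Structure A] (g : L0.Hom A M) (n : ℕ) (y : A) :
    g (opc n y) = opc n (g y) := by
  have := g.map_fun (sc n) (fun _ => y)
  rw [funMap_sc, funMap_sc] at this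
  exact this

theorem hom_unique (h k : L0.Hom W M) (hk : h gen0 = k gen0) : h = k := by
  have hw : ∀ l : List ℕ, h (W.w l) = k (W.w l) := by
    intro l
    induction l using List.reverseRecOn with
    | nil => exact hk
    | append_singleton l n ih =>
      have : W.w (l ++ [n]) = opc n (W.w l) := rfl
      rw [this, hom_opc, hom_opc, ih]
  apply Hom.ext
  intro y
  cases y with
  | w l => exact hw l
  | b x =>
    cases x with
    | false =>
      have : W.b false = opf (W.w []) := rfl
      rw [this, hom_opf, hom_opf, hw]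
    | true =>
      have : W.b true = opf (W.w [0]) := rfl
      rw [this, hom_opf, hom_opf, hw]

end univ

theorem W_free (M : Type) [L0.Structure M] (hM : InVariety L0 E0 M) (f : Fin 1 → M) :
    ∃! h : L0.Hom W M, ⇑h ∘ (fun _ : Fin 1 => gen0) = f := by
  refine ⟨extHom hM (f 0), ?_, ?_⟩
  · funext i
    rw [Subsingleton.elim i 0]
    rfl
  · intro k hk
    apply hom_unique
    have := congrFun hk 0
    simp only [Function.comp_apply] at this
    rw [this]
    rfl

/-! ### The two elements of the same type -/

/-- Parity of the length of the block of letters `N` at the beginning of a word. -/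
def blk (N : ℕ) : List ℕ → Bool
  | [] => false
  | k :: l => if k = N then !(blk N l) else false

/-- Remove or add a letter `N` at the beginning, according to the parity of the block. -/
def tog (N : ℕ) (l : List ℕ) : List ℕ := if blk N l = true then l.tail else N :: l

theorem blk_append (N n : ℕ) (h : n ≠ N) (l : List ℕ) : blk N (l ++ [n]) = blk N l := by
  induction l with
  | nil => simp [blk, h]
  | cons k l ih => simp only [List.cons_append, blk, ih]

theorem blk_true {N : ℕ} {l : List ℕ} (h : blk N l = true) :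
    ∃ l', l = N :: l' ∧ blk N l' = false := by
  cases l with
  | nil => simp [blk] at h
  | cons k l =>
    simp only [blk] at h
    by_cases hk : k = N
    · subst hk
      simp at h
      exact ⟨l, rfl, h⟩
    · simp [hk] at h

theorem tog_append (N n : ℕ) (h : n ≠ N) (l : List ℕ) : tog N (l ++ [n]) = tog N l ++ [n] := by
  unfold tog
  rw [blk_append N n h]
  by_cases hb : blk N l = true
  · obtain ⟨l', rfl, -⟩ := blk_true hb
    simp [hb]
  · simp [hb]

theorem tog_tog (N : ℕ) (l : List ℕ) : tog N (tog N l) = l := by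
  by_cases hb : blk N l = true
  · obtain ⟨l', rfl, hl'⟩ := blk_true hb
    simp [tog, hb, hl']
  · simp only [Bool.not_eq_true] at hb
    simp [tog, hb, blk]

theorem tog_length (N : ℕ) (l : List ℕ) :
    (tog N l).length % 2 = 1 ↔ ¬ l.length % 2 = 1 := by
  by_cases hb : blk N l = true
  · obtain ⟨l', rfl, hl'⟩ := blk_true hb
    simp only [tog, hb, if_true, List.tail_cons, List.length_cons]
    omega
  · simp only [Bool.not_eq_true] at hb
    simp only [tog, hb, Bool.false_eq_true, if_false, List.length_cons]
    omega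

/-- The map exchanging the two elements of the same type. -/
def sig (N : ℕ) : W → W
  | W.w l => W.w (tog N l)
  | W.b x => W.b (!x)

theorem sig_sig (N : ℕ) (y : W) : sig N (sig N y) = y := by
  cases y with
  | w l => simp [sig, tog_tog]
  | b x => simp [sig]

theorem sig_inj (N : ℕ) : Function.Injective (sig N) := by
  intro y z h
  rw [← sig_sig N y, h, sig_sig]

theorem sig_opf (N : ℕ) (y : W) : sig N (opf y) = opf (sig N y) := by
  cases y with
  | w l =>
    simp only [W_opf, Wf, sig]
    have := tog_length N l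
    by_cases h : l.length % 2 = 1
    · simp [h, this]
    · simp [h, this]
  | b x => rfl

theorem sig_opc (N n : ℕ) (h : n ≠ N) (y : W) : sig N (opc n y) = opc n (sig N y) := by
  cases y with
  | w l => simp only [W_opc, Wc, sig, tog_append N n h]
  | b x => rfl

theorem sig_term {α : Type} (t : L0.Term α) :
    ∃ N0 : ℕ, ∀ N, N0 ≤ N → ∀ v : α → W, t.realize (sig N ∘ v) = sig N (t.realize v) := by
  induction t with
  | var i => exact ⟨0, fun N _ v => rfl⟩
  | func g ts ih =>
    rename_i l
    choose B hB using ih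
    obtain ⟨N1, hN1⟩ : ∃ N1 : ℕ, ∀ N, N1 ≤ N → ∀ x : Fin l → W,
        Structure.funMap g (sig N ∘ x) = sig N (Structure.funMap g x) := by
      refine fn_cases (P := fun l g => ∃ N1 : ℕ, ∀ N, N1 ≤ N → ∀ x : Fin l → W,
        Structure.funMap g (sig N ∘ x) = sig N (Structure.funMap g x)) ?_ ?_ l g
      · refine ⟨0, fun N _ x => ?_⟩
        rw [funMap_sf, funMap_sf, sig_opf]
        rfl
      · intro n
        refine ⟨n + 1, fun N hN x => ?_⟩
        rw [funMap_sc, funMap_sc, sig_opc N n (by omega)]
        rfl
    refine ⟨N1 + ∑ i, B i, fun N hN v => ?_⟩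
    rw [Term.realize_func, Term.realize_func, ← hN1 N (by omega)]
    congr 1
    funext i
    rw [Function.comp_apply]
    apply hB
    have : B i ≤ ∑ i, B i := Finset.single_le_sum (fun _ _ => Nat.zero_le _) (Finset.mem_univ i)
    omega

theorem sig_formula {α : Type} {n : ℕ} (φ : L0.BoundedFormula α n) :
    ∃ N0 : ℕ, ∀ N, N0 ≤ N → ∀ (v : α → W) (xs : Fin n → W),
      (φ.Realize (sig N ∘ v) (sig N ∘ xs) ↔ φ.Realize v xs) := by
  induction φ with
  | falsum => exact ⟨0, fun N _ v xs => Iff.rfl⟩
  | equal t₁ t₂ =>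
    obtain ⟨N1, h1⟩ := sig_term t₁
    obtain ⟨N2, h2⟩ := sig_term t₂
    refine ⟨N1 + N2, fun N hN v xs => ?_⟩
    simp only [BoundedFormula.Realize]
    rw [← Sum.comp_elim, h1 N (by omega), h2 N (by omega)]
    exact (sig_inj N).eq_iff
  | rel R ts => exact Empty.elim R
  | imp f₁ f₂ ih1 ih2 =>
    obtain ⟨N1, h1⟩ := ih1
    obtain ⟨N2, h2⟩ := ih2
    refine ⟨N1 + N2, fun N hN v xs => ?_⟩
    simp only [BoundedFormula.Realize]
    rw [h1 N (by omega), h2 N (by omega)]
  | all f ih =>
    obtain ⟨N1, h1⟩ := ih
    refine ⟨N1, fun N hN v xs => ?_⟩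
    simp only [BoundedFormula.Realize]
    constructor
    · intro h x
      have := h (sig N x)
      rw [← Fin.comp_snoc, h1 N hN] at this
      exact this
    · intro h x
      have := h (sig N x)
      rw [← h1 N hN, Fin.comp_snoc, sig_sig] at this
      exact this

/-- The two elements `W.b false` and `W.b true` have the same type. -/
theorem same_type (φ : L0.Formula (Fin 1)) :
    φ.Realize (fun _ => W.b false) ↔ φ.Realize (fun _ => W.b true) := by
  obtain ⟨N0, h⟩ := sig_formula φ
  have := h N0 le_rfl (fun _ => W.b true) default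
  unfold Formula.Realize
  rw [← this]
  have e1 : (sig N0 ∘ fun _ : Fin 1 => W.b true) = fun _ => W.b false := by
    funext i
    rfl
  rw [e1]
  have e2 : (sig N0 ∘ (default : Fin 0 → W)) = default := Subsingleton.elim _ _
  rw [e2]

theorem no_auto (σ : L0.Equiv W W) : σ (W.b true) ≠ W.b false := by
  have hg : σ gen0 = gen0 := by
    cases h : σ gen0 with
    | w l =>
      induction l using List.reverseRecOn with
      | nil => rfl
      | append_singleton l n _ =>
        exfalso
        have h2 : W.w (l ++ [n]) = opc n (W.w l) := rfl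
        obtain ⟨z, hz⟩ := σ.surjective (W.w l)
        rw [h2, ← hz] at h
        have h3 : σ (opc n z) = opc n (σ z) := hom_opc σ.toHom n z
        rw [← h3] at h
        have h4 := σ.injective h
        exact gen0_not 1 (sc n) (fun _ => z) h4.symm
    | b x =>
      exfalso
      have h2 : W.b x = opf (W.b x) := rfl
      obtain ⟨z, hz⟩ := σ.surjective (W.b x)
      rw [h2, ← hz] at h
      have h3 : σ (opf z) = opf (σ z) := hom_opf σ.toHom z
      rw [← h3] at h
      have h4 := σ.injective h
      exact gen0_not 1 sf (fun _ => z) h4.symm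
  have h1 : σ (opc 0 gen0) = opc 0 (σ gen0) := hom_opc σ.toHom 0 gen0
  have h2 : σ (opf (opc 0 gen0)) = opf (σ (opc 0 gen0)) := hom_opf σ.toHom _
  have h3 : W.b true = opf (opc 0 gen0) := rfl
  rw [h3, h2, h1, hg]
  intro h
  cases h

/-- There are a variety, two isotypic finitely generated free algebras in it, and points with
equal logical kernels that no isomorphism carries to one another. -/
theorem result :
    ∃ (L : FirstOrder.Language.{0, 0}) (_ : ∀ n, IsEmpty (L.Relations n))
      (E : Set (Σ n : ℕ, L.Term (Fin n) × L.Term (Fin n)))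
      (H₁ H₂ : Type) (_ : L.Structure H₁) (_ : L.Structure H₂)
      (n₁ n₂ : ℕ) (ι₁ : Fin n₁ → H₁) (ι₂ : Fin n₂ → H₂)
      (m : ℕ) (μ : Fin m → H₁) (ν : Fin m → H₂),
      IsFreeOn L E n₁ H₁ ι₁ ∧ IsFreeOn L E n₂ H₂ ι₂ ∧ Isotypic L H₁ H₂ ∧
      SameType L μ ν ∧ ¬ ∃ σ : L.Equiv H₁ H₂, ⇑σ ∘ μ = ν := by
  refine ⟨L0, fun n => ⟨fun r => Empty.elim r⟩, E0, W, W, inferInstance, inferInstance, 1, 1,
    fun _ => gen0, fun _ => gen0, 1, fun _ => W.b true, fun _ => W.b false,
    ⟨W_sat, W_free⟩, ⟨W_sat, W_free⟩, ?_, ?_, ?_⟩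
  · intro m
    exact ⟨fun a => ⟨a, fun φ => Iff.rfl⟩, fun b => ⟨b, fun φ => Iff.rfl⟩⟩
  · intro φ
    exact (same_type φ).symm
  · rintro ⟨σ, hσ⟩
    exact no_auto σ (congrFun hσ 0)

end Pool.Agent.Results.MP_9f131e_lc.IsotypicFree
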